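import Mathlib

/-!
# Perfect normal closures of finite sets are not covered by invariant abelian systems
-/

set_option autoImplicit false

namespace Pool.Agent.H62.TA

/-- `H` is an SI-group: there is a chain of normal subgroups such that every nontrivial element lies in `V` and not
in `L` for some `L`, `V` in the chain with `V/L` abelian (i.e. the commutators of `V` lie in `L`). -/
def SI (H : Type) [Group H] : Prop :=
  ∃ C : Set (Subgroup H), IsChain (· ≤ ·) C ∧ (∀ V ∈ C, V.Normal) ∧
    ∀ x : H, x ≠ 1 → ∃ L ∈ C, ∃ V ∈ C, x ∈ V ∧ x ∉ L ∧ ⁅V, V⁆ ≤ L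

theorem not_si {H : Type} [Group H] (P : Subgroup H) (hP : ⁅P, P⁆ = P) (S : Finset H)
    (hS : Subgroup.normalClosure (S : Set H) = P) (hne : P ≠ ⊥) : ¬ SI H := by
  classical
  rintro ⟨C, hC, hN, hx⟩
  -- the nontrivial elements of S
  have hS1 : ∃ s ∈ S, s ≠ 1 := by
    by_contra hcon
    push Not at hcon
    apply hne
    rw [← hS, eq_bot_iff]
    apply Subgroup.normalClosure_le_normal
    intro s hs
    exact hcon s hs
  choose! L hL V hV hxV hxL hab using hx
  set T := S.filter (fun s => s ≠ 1) with hT
  have hTne : T.Nonempty := by
    obtain ⟨s, hs, h1⟩ := hS1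
    exact ⟨s, by simp [hT, hs, h1]⟩
  -- an element with the largest V
  have hmax : ∃ s ∈ T, ∀ u ∈ T, V u ≤ V s := by
    have key : ∀ T' : Finset H, T' ⊆ T → T'.Nonempty → ∃ s ∈ T', ∀ u ∈ T', V u ≤ V s := by
      intro T'
      induction T' using Finset.induction_on with
      | empty => intro _ h; exact absurd h Finset.not_nonempty_empty
      | insert a T' ha ih =>
        intro hsub _
        have haT : a ≠ 1 := by
          have h1 := hsub (Finset.mem_insert_self a T')
          simp only [hT, Finset.mem_filter] at h1
          exact h1.2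
        by_cases hT' : T'.Nonempty
        · obtain ⟨s, hs, hs2⟩ := ih (fun x hx => hsub (Finset.mem_insert_of_mem hx)) hT'
          have hsT : s ≠ 1 := by
            have h1 := hsub (Finset.mem_insert_of_mem hs)
            simp only [hT, Finset.mem_filter] at h1
            exact h1.2
          rcases hC.total (hV a haT) (hV s hsT) with h | h
          · refine ⟨s, Finset.mem_insert_of_mem hs, ?_⟩
            intro u hu
            rcases Finset.mem_insert.1 hu with rfl | hu
            · exact h
            · exact hs2 u hu
          · refine ⟨a, Finset.mem_insert_self a T', ?_⟩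
            intro u hu
            rcases Finset.mem_insert.1 hu with rfl | hu
            · exact le_refl _
            · exact (hs2 u hu).trans h
        · rw [Finset.not_nonempty_iff_eq_empty] at hT'
          refine ⟨a, Finset.mem_insert_self a T', ?_⟩
          intro u hu
          rw [hT'] at hu
          simp at hu
          rw [hu]
    exact key T (Finset.Subset.refl _) hTne
  obtain ⟨s, hs, hs2⟩ := hmax
  have hs1 : s ∈ S ∧ s ≠ 1 := by simpa [hT] using hs
  have hPV : P ≤ V s := by
    rw [← hS]
    haveI := hN (V s) (hV s hs1.2)
    apply Subgroup.normalClosure_le_normal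
    intro u hu
    by_cases hu1 : u = 1
    · rw [hu1]; exact (V s).one_mem
    · exact hs2 u (by simp only [hT, Finset.mem_filter]; exact ⟨hu, hu1⟩) (hxV u hu1)
  apply hxL s hs1.2
  have h1 : s ∈ P := by
    rw [← hS]
    exact Subgroup.subset_normalClosure hs1.1
  rw [← hP] at h1
  exact hab s hs1.2 (Subgroup.commutator_mono hPV hPV h1)

end Pool.Agent.H62.TA
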